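import Mathlib
import Pool.Agent.P.MP_0afb51_an.Main

/-!
Positive answer to Q1: for every `T > 0` and every `q` the bad Boussinesq equation has a Schwartz
class solution on `ℝ × [0,T)` whose derivatives of parabolic weight at most `q` stay bounded while
a derivative of weight `q + 1` is unbounded near two distinct points.
-/

namespace Pool.Agent.Results.MP_0afb51_an.TwoPointBlowup

open scoped ContDiff Topology

/-- The mixed derivative `∂_x^i ∂_t^j u` at `(x, t)`; time derivatives are taken within `[0,T)`,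
so they are one-sided at `t = 0`. -/
noncomputable def D (T : ℝ) (u : ℝ → ℝ → ℝ) (i j : ℕ) (x t : ℝ) : ℝ :=
  iteratedDeriv i (fun y => iteratedDerivWithin j (fun s => u y s) (Set.Ico 0 T) t) x

/-- Schwartz class solution of `u_tt = u_xx + (u^2)_xx + u_xxxx` on `ℝ × [0,T)`. -/
def IsSolution (T : ℝ) (u : ℝ → ℝ → ℝ) : Prop :=
  ContDiffOn ℝ ∞ (fun p : ℝ × ℝ => u p.1 p.2) (Set.univ ×ˢ Set.Ico 0 T) ∧
  (∀ x : ℝ, ∀ t ∈ Set.Ico 0 T,
    D T u 0 2 x t = D T u 2 0 x t + D T (fun y s => u y s ^ 2) 2 0 x t + D T u 4 0 x t) ∧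
  ∀ N : ℕ, 1 ≤ N → ∀ τ ∈ Set.Ico 0 T, ∃ C : ℝ, ∀ x : ℝ, ∀ t ∈ Set.Icc 0 τ,
    ∑ i ∈ Finset.range (N + 1), (1 + |x|) ^ N * |D T u i 0 x t| ≤ C

/-- `f` is unbounded on `U ∩ (ℝ × [0,T))` for every neighbourhood `U` of `p`. -/
def UnboundedNear (T : ℝ) (f : ℝ → ℝ → ℝ) (p : ℝ × ℝ) : Prop :=
  ∀ U ∈ 𝓝 p, ¬ ∃ C : ℝ, ∀ z ∈ U, z.2 ∈ Set.Ico 0 T → |f z.1 z.2| ≤ C

open Set Filter Pool.Agent.P.MP_0afb51_an in
theorem result (T : ℝ) (hT : 0 < T) (q : ℕ) :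
    ∃ u : ℝ → ℝ → ℝ, IsSolution T u ∧
      (∀ q₁ q₂ : ℕ, q₁ + 2 * q₂ ≤ q →
        ∃ C : ℝ, ∀ x : ℝ, ∀ t ∈ Set.Ico 0 T, |D T u q₁ q₂ x t| ≤ C) ∧
      ∃ q₁ q₂ : ℕ, q₁ + 2 * q₂ = q + 1 ∧
        ∃ p₁ p₂ : ℝ × ℝ, p₁ ≠ p₂ ∧ p₁.2 ∈ Set.Icc 0 T ∧ p₂.2 ∈ Set.Icc 0 T ∧
          UnboundedNear T (D T u q₁ q₂) p₁ ∧ UnboundedNear T (D T u q₁ q₂) p₂ := by
  obtain ⟨u, v, p, hc, hre, hu, hv, hdec, hblow⟩ :=
    exists_solution q (L := T + 1) (by linarith)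
  have hmem : ∀ t ∈ Ico 0 T, t + 1 ∈ Ioo 0 (T + 1) := fun t ht =>
    ⟨by linarith [ht.1], by linarith [ht.2]⟩
  have hO : IsOpen ((univ : Set ℝ) ×ˢ Ioo (0 : ℝ) (T + 1)) := isOpen_univ.prod isOpen_Ioo
  have hsm : ∀ x, ∀ t ∈ Ico 0 T,
      ContDiffAt ℝ ∞ (fun z : ℝ × ℝ => (u 0 (z.1, z.2 + 1)).re) (x, t) := by
    intro x t ht
    have h1 : ContDiffAt ℝ ∞ (u 0) (x, t + 1) :=
      (hc.contDiffOn (u_mem (v := v) (le_refl 0))).contDiffAt
        (hO.mem_nhds ⟨mem_univ _, hmem t ht⟩)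
    have h2 : ContDiffAt ℝ ∞ (fun z : ℝ × ℝ => (z.1, z.2 + 1)) (x, t) := by fun_prop
    exact Complex.reCLM.contDiff.contDiffAt.comp (x, t) (ContDiffAt.comp (x, t) h1 h2)
  have hD : ∀ i j x, ∀ t ∈ Ico 0 T, D T (fun x t => (u 0 (x, t + 1)).re) i j x t =
      iteratedDeriv i (fun y => iteratedDeriv j (fun s => (u 0 (y, s)).re) (t + 1)) x := by
    intro i j x t ht
    unfold D
    congr 1
    funext y
    have h1 : ContDiffAt ℝ j (fun s : ℝ => (u 0 (y, s + 1)).re) t := by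
      have h2 : ContDiffAt ℝ ∞ (fun s : ℝ => (y, s)) t := by fun_prop
      exact (ContDiffAt.comp t (hsm y t ht) h2).of_le (by exact_mod_cast le_top)
    rw [iteratedDerivWithin_eq_iteratedDeriv (uniqueDiffOn_Ico 0 T) h1 ht]
    exact congrFun (iteratedDeriv_comp_add_const j (fun s => (u 0 (y, s)).re) 1) t
  have hDx : ∀ i x, ∀ t ∈ Ico 0 T,
      D T (fun x t => (u 0 (x, t + 1)).re) i 0 x t = (u i (x, t + 1)).re := by
    intro i x t ht
    rw [hD i 0 x t ht, ← hc.iter_u i x (hmem t ht)]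
    simp only [iteratedDeriv_zero]
  have hunb : ∀ x : ℝ, x = 0 ∨ x = 1 →
      UnboundedNear T (D T (fun x t => (u 0 (x, t + 1)).re) (q + 1) 0) (x, T) := by
    rintro x hx U hU ⟨C, hC⟩
    have h1 : Tendsto (fun t : ℝ => t + 1) (𝓝[<] T) (𝓝[<] (T + 1)) := by
      refine tendsto_nhdsWithin_of_tendsto_nhds_of_eventually_within _
        (((continuous_add_const 1).tendsto T).mono_left nhdsWithin_le_nhds) ?_
      filter_upwards [self_mem_nhdsWithin] with t ht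
      exact add_lt_add_left (mem_Iio.1 ht) 1
    have h2 : ∀ᶠ t in 𝓝[<] T, (x, t) ∈ U :=
      nhdsWithin_le_nhds (((Continuous.prodMk_right x).tendsto T) hU)
    obtain ⟨t, ht1, ht2, ht3⟩ :=
      ((h1.eventually (hblow x hx (C + 1))).and (h2.and (Ico_mem_nhdsLT hT))).exists
    have h3 := hC (x, t) ht2 ht3
    rw [hDx _ x t ht3] at h3
    linarith [le_abs_self (u (q + 1) (x, t + 1)).re]
  refine ⟨fun x t => (u 0 (x, t + 1)).re, ⟨fun z hz => (hsm z.1 z.2 hz.2).contDiffWithinAt,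
    fun x t ht => ?_, fun N _ τ hτ => ?_⟩, fun q₁ q₂ hq => ?_,
    q + 1, 0, by ring, (0, T), (1, T), by simp, ⟨hT.le, le_rfl⟩, ⟨hT.le, le_rfl⟩,
    hunb 0 (Or.inl rfl), hunb 1 (Or.inr rfl)⟩
  · have h1 : D T (fun y s => (u 0 (y, s + 1)).re ^ 2) 2 0 x t = (p 2 (x, t + 1)).re := by
      rw [← hc.iter_p 2 x (hmem t ht)]
      unfold D
      congr 1
      funext y
      rw [iteratedDerivWithin_zero, hc.p0 y _ (hmem t ht), Complex.mul_re, hre y _ (hmem t ht)]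
      ring
    rw [h1, hDx 2 x t ht, hDx 4 x t ht, hD 0 2 x t ht, iteratedDeriv_zero,
      hc.iter_tt x (hmem t ht)]
    ring
  · have hδ : 0 < min 1 (T - τ) := lt_min one_pos (sub_pos.2 hτ.2)
    choose C hC using fun i => hdec _ hδ i N
    refine ⟨∑ i ∈ Finset.range (N + 1), C i, fun x t ht => Finset.sum_le_sum fun i _ => ?_⟩
    have ht' : t ∈ Ico 0 T := ⟨ht.1, ht.2.trans_lt hτ.2⟩
    rw [hDx i x t ht']
    refine le_trans ?_ (hC i x (t + 1) ?_)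
    · gcongr
      exact Complex.abs_re_le_norm _
    · refine le_trans ?_ (le_max_right _ _)
      exact min_le_min (by linarith [ht.1]) (by linarith [ht.2])
  · obtain ⟨C, hC⟩ := hc.mixed_bounded hu hv hq
    refine ⟨C, fun x t ht => ?_⟩
    rw [hD q₁ q₂ x t ht]
    exact hC x _ (hmem t ht)

end Pool.Agent.Results.MP_0afb51_an.TwoPointBlowup
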